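import Pool.Agent.LE.StmtsQE

/-!
# Squad LQD, row SCE: the self-consistent equation
-/

set_option autoImplicit false

open MeasureTheory ProbabilityTheory Function Filter

open scoped ENNReal BigOperators Topology NNReal ComplexOrder Matrix

noncomputable section

namespace Pool.Agent.LE.QD.H93

open Pool.Agent.Anderson hiding box mem_box card_box
open Pool.Agent.Loc Pool.Agent.Mob Pool.Agent.Helper54.Bal
  Pool.Agent.Helper96.EXP Pool.Agent.BED
open Pool.Agent.LE.MN Pool.Agent.LE.CL Pool.Agent.LE.IR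

variable {d M : ℕ} [NeZero M]

theorem pm_mono' {F G : Tor d M → ℝ} (h : ∀ p, F p ≤ G p) : pm F ≤ pm G := by
  unfold pm
  exact div_le_div_of_nonneg_right (Finset.sum_le_sum fun p _ => h p) (by positivity)

theorem pm_const_mul (a : ℝ) (F : Tor d M → ℝ) : pm (fun p => a * F p) = a * pm F := by
  unfold pm
  rw [← Finset.mul_sum, mul_div_assoc]

theorem norm_sub_eq (x : ℝ) (ζ : ℂ) : ‖(x : ℂ) - ζ‖ = Real.sqrt ((x - ζ.re) ^ 2 + ζ.im ^ 2) := by
  rw [Complex.norm_def, Complex.normSq_apply]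
  congr 1
  simp only [Complex.sub_re, Complex.ofReal_re, Complex.sub_im, Complex.ofReal_im, zero_sub]
  ring

theorem inv_im (x : ℝ) (ζ : ℂ) : (((x : ℂ) - ζ)⁻¹).im = ζ.im / ((x - ζ.re) ^ 2 + ζ.im ^ 2) := by
  rw [Complex.inv_im, Complex.normSq_apply]
  simp only [Complex.sub_re, Complex.ofReal_re, Complex.sub_im, Complex.ofReal_im, zero_sub,
    neg_neg]
  congr 1
  ring

theorem sce (ral : RalStmt) (dsu : DsuStmt) (dsl : DslStmt) : SceStmt := by
  intro d δ hd hδ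
  obtain ⟨C₁, hC₁, hdsu⟩ := dsu d hd
  obtain ⟨c₁, C₂, hc₁, hc₁1, hC₂, hdsl⟩ := dsl d (δ / 2) hd (by positivity)
  have hC₁0 : 0 < C₁ := by linarith
  have hC₂0 : 0 < C₂ := by linarith
  obtain ⟨c, hcd⟩ : ∃ c : ℝ, c = min (c₁ / (4 * C₁)) (min (1 / 4) (δ / (4 * C₁))) := ⟨_, rfl⟩
  have hc : 0 < c := by rw [hcd]; positivity
  have k1 : 4 * C₁ * c ≤ c₁ := by
    have : c ≤ c₁ / (4 * C₁) := by rw [hcd]; exact min_le_left _ _
    rw [le_div_iff₀ (by positivity)] at this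
    linarith
  have k2 : c ≤ 1 / 4 := by rw [hcd]; exact (min_le_right _ _).trans (min_le_left _ _)
  have k3 : 4 * C₁ * c ≤ δ := by
    have : c ≤ δ / (4 * C₁) := by rw [hcd]; exact (min_le_right _ _).trans (min_le_right _ _)
    rw [le_div_iff₀ (by positivity)] at this
    linarith
  have k4 : 4 * c ≤ c₁ := by
    have : 1 * c ≤ C₁ * c := mul_le_mul_of_nonneg_right hC₁ hc.le
    linarith
  obtain ⟨C, hCd⟩ : ∃ C : ℝ, C = 2 * C₁ + C₂ := ⟨_, rfl⟩
  have hC0 : 0 < C := by rw [hCd]; positivity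
  refine ⟨c, C, hc, by linarith, by linarith, ?_⟩
  intro M _ v E η s₀ g ζ s hE hη hηc hv hM hg hvg hvl hs0 hsl hs hζ hgeq
  obtain ⟨l', hl'⟩ : ∃ l : ℝ, l = 1 + Real.log (1 / η) := ⟨_, rfl⟩
  rw [← hl'] at hvl hsl ⊢
  have hlog : 0 ≤ Real.log (1 / η) := Real.log_nonneg (by
    rw [le_div_iff₀ hη]
    linarith)
  have hl'1 : 1 ≤ l' := by rw [hl']; linarith
  -- the width
  obtain ⟨w, hw⟩ : ∃ w : ℝ, w = ζ.im := ⟨_, rfl⟩
  have hw1 : w = η + v * g.im := by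
    rw [hw, hζ]
    simp [Complex.add_im, Complex.mul_im]
  have hηw : η ≤ w := by
    rw [hw1]
    have := mul_nonneg hv hg
    linarith
  have hw0 : 0 < w := by linarith
  have hwc : w ≤ 2 * c := by linarith
  have hre : ζ.re = E + v * g.re := by
    rw [hζ]
    simp [Complex.add_re, Complex.mul_re]
  have hM0 : (0 : ℝ) < M := by exact_mod_cast Nat.pos_of_ne_zero (NeZero.ne M)
  have hMd : (0 : ℝ) < (M : ℝ) ^ d := by positivity
  have hMC : ∀ A : ℝ, 0 < A → A ≤ C → A / w ≤ M := by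
    intro A hA hAC
    calc A / w ≤ A / η := by gcongr
      _ ≤ C / η := by gcongr
      _ ≤ M := hM
  have hlw : 1 + Real.log (1 / w) ≤ l' := by
    rw [hl']
    have : Real.log (1 / w) ≤ Real.log (1 / η) :=
      Real.log_le_log (by positivity) (one_div_le_one_div_of_le hη hηw)
    linarith
  obtain ⟨d1, d2⟩ := hdsu M ζ.re w hw0 (by linarith) (hMC C₁ hC₁0 (by linarith))
  have d2' : pm (fun p : Tor d M => (Real.sqrt ((es p - ζ.re) ^ 2 + w ^ 2))⁻¹) ≤ C₁ * l' :=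
    d2.trans (mul_le_mul_of_nonneg_left hlw hC₁0.le)
  -- the free resolvent
  have hζim : 0 < ζ.im := by rw [← hw]; exact hw0
  obtain ⟨-, -, -, -, r5, -, -, -, -, -, r11, -⟩ := ral d M 0 ζ hζim
  obtain ⟨g₀, hg₀⟩ : ∃ g₀ : ℂ, g₀ = rs (0 : Tor d M → ℝ) ζ 0 0 := ⟨_, rfl⟩
  have e0 : g₀ = (∑ p : Tor d M, ((es p : ℂ) - ζ)⁻¹) / (M : ℂ) ^ d := by
    rw [hg₀, r11]
    congr 1
    refine Finset.sum_congr rfl fun p _ => ?_
    have : ec p (0 - 0 : Tor d M) = 1 := by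
      simp [ec]
    rw [this, one_div]
  have hMn : ‖(M : ℂ) ^ d‖ = (M : ℝ) ^ d := by
    rw [norm_pow, Complex.norm_natCast]
  have hnorm : ∀ (F : Tor d M → ℂ) (a : ℝ), (∀ p, ‖F p‖ ≤ a) → 0 ≤ a →
      ‖(∑ p : Tor d M, F p * ((es p : ℂ) - ζ)⁻¹) / (M : ℂ) ^ d‖ ≤ a * (C₁ * l') := by
    intro F a hF ha
    have h1 : ‖∑ p : Tor d M, F p * ((es p : ℂ) - ζ)⁻¹‖ ≤
        ∑ p : Tor d M, a * (Real.sqrt ((es p - ζ.re) ^ 2 + w ^ 2))⁻¹ := by
      refine norm_sum_le_of_le _ fun p _ => ?_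
      rw [norm_mul, norm_inv, norm_sub_eq, ← hw]
      exact mul_le_mul_of_nonneg_right (hF p) (by positivity)
    rw [norm_div, hMn]
    calc ‖∑ p : Tor d M, F p * ((es p : ℂ) - ζ)⁻¹‖ / (M : ℝ) ^ d
        ≤ (∑ p : Tor d M, a * (Real.sqrt ((es p - ζ.re) ^ 2 + w ^ 2))⁻¹) / (M : ℝ) ^ d :=
          div_le_div_of_nonneg_right h1 hMd.le
      _ = a * pm (fun p : Tor d M => (Real.sqrt ((es p - ζ.re) ^ 2 + w ^ 2))⁻¹) :=
          pm_const_mul a _
      _ ≤ a * (C₁ * l') := mul_le_mul_of_nonneg_left d2' ha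
  have hdiff : g - g₀ = (∑ p : Tor d M, s p * ((es p : ℂ) - ζ)⁻¹) / (M : ℂ) ^ d := by
    rw [hgeq, e0, ← sub_div, ← Finset.sum_sub_distrib]
    congr 1
    refine Finset.sum_congr rfl fun p _ => ?_
    rw [div_eq_mul_inv]
    ring
  have hD : ‖g - g₀‖ ≤ s₀ * (C₁ * l') := by
    rw [hdiff]
    exact hnorm s s₀ hs hs0
  have hG0 : ‖g₀‖ ≤ 1 * (C₁ * l') := by
    have h1 := hnorm (fun _ => 1) 1 (fun _ => by simp) (by norm_num)
    simp only [one_mul] at h1 ⊢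
    rw [e0]
    exact h1
  have hDc : s₀ * (C₁ * l') ≤ c₁ / 4 := by
    have h1 : C₁ * (s₀ * l') ≤ C₁ * c := mul_le_mul_of_nonneg_left hsl hC₁0.le
    calc s₀ * (C₁ * l') = C₁ * (s₀ * l') := by ring
      _ ≤ C₁ * c := h1
      _ ≤ c₁ / 4 := by linarith
  -- the real part
  have hs1 : s₀ ≤ 1 := by
    have h1 : s₀ * 1 ≤ s₀ * l' := mul_le_mul_of_nonneg_left hl'1 hs0
    linarith
  have hgn : ‖g‖ ≤ 2 * (C₁ * l') := by
    have h1 : ‖g‖ ≤ ‖g₀‖ + ‖g - g₀‖ := by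
      have : g = g₀ + (g - g₀) := by ring
      nth_rewrite 1 [this]
      exact norm_add_le _ _
    have h2 : s₀ * (C₁ * l') ≤ 1 * (C₁ * l') := mul_le_mul_of_nonneg_right hs1 (by positivity)
    linarith
  have hreal : |ζ.re| ≤ 2 * d - δ / 2 := by
    have h1 : |v * g.re| ≤ δ / 2 := by
      rw [abs_mul, abs_of_nonneg hv]
      calc v * |g.re| ≤ v * ‖g‖ := mul_le_mul_of_nonneg_left (Complex.abs_re_le_norm g) hv
        _ ≤ v * (2 * (C₁ * l')) := mul_le_mul_of_nonneg_left hgn hv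
        _ = 2 * C₁ * (v * l') := by ring
        _ ≤ 2 * C₁ * c := mul_le_mul_of_nonneg_left hvl (by positivity)
        _ ≤ δ / 2 := by linarith
    rw [hre]
    exact (abs_add_le _ _).trans (by linarith)
  -- the imaginary part of the free resolvent
  have him : g₀.im = pm (fun p : Tor d M => w / ((es p - ζ.re) ^ 2 + w ^ 2)) := by
    rw [e0]
    have h1 : ((M : ℂ) ^ d) = (((M : ℝ) ^ d : ℝ) : ℂ) := by push_cast; rfl
    rw [h1, Complex.div_ofReal_im, Complex.im_sum]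
    unfold pm
    congr 1
    refine Finset.sum_congr rfl fun p _ => ?_
    rw [inv_im, hw]
  have hup : g₀.im ≤ C₁ := by rw [him]; exact d1
  have hlow : c₁ / 2 ≤ g₀.im := by
    have h1 := hdsl M ζ.re w 0 ⟨0, by omega⟩ hreal hw0 (by linarith)
      (hMC C₂ hC₂0 (by linarith))
    have h2 : pm (fun p : Tor d M => if |es p - ζ.re| ≤ w then
        Real.sin (2 * Real.pi * ((p ⟨0, by omega⟩).valMinAbs : ℝ) / M - 0) ^ 2 else 0) ≤
        pm (fun p : Tor d M => 2 * w * (w / ((es p - ζ.re) ^ 2 + w ^ 2))) := by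
      refine pm_mono' fun p => ?_
      have h3 : 0 < (es p - ζ.re) ^ 2 + w ^ 2 := by positivity
      split_ifs with h4
      · have h5 : (es p - ζ.re) ^ 2 ≤ w ^ 2 := sq_le_sq' (abs_le.1 h4).1 (abs_le.1 h4).2
        refine (Real.sin_sq_le_one _).trans ?_
        rw [← mul_div_assoc, le_div_iff₀ h3]
        nlinarith only [h5]
      · positivity
    rw [pm_const_mul, ← him] at h2
    have h6 : c₁ * w ≤ 2 * g₀.im * w := by linarith
    have := le_of_mul_le_mul_right h6 hw0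
    linarith
  have hdim : |g.im - g₀.im| ≤ s₀ * (C₁ * l') := by
    rw [← Complex.sub_im]
    exact (Complex.abs_im_le_norm _).trans hD
  obtain ⟨q1, q2⟩ := abs_le.1 hdim
  rw [← hg₀]
  refine ⟨hreal, ⟨by linarith, ?_⟩, ?_, ⟨by linarith, by linarith⟩, ?_⟩
  · linarith
  · refine hdim.trans ?_
    have h1 : 0 ≤ s₀ * l' := by positivity
    calc s₀ * (C₁ * l') = C₁ * (s₀ * l') := by ring
      _ ≤ C * (s₀ * l') := mul_le_mul_of_nonneg_right (by linarith) h1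
      _ = C * s₀ * l' := by ring
  · rw [hg₀]
    exact r5 0

end Pool.Agent.LE.QD.H93
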