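import Pool.Agent.Helper54_LIR.All
import Pool.Agent.Helper55_BED.GCFinal
import Pool.Agent.Helper45_LQD.BES
import Pool.Agent.Helper90_LQD.BE2
import Pool.Agent.Helper89_LQD.TOR
import Pool.Agent.Helper46_LQD.BKT
import Pool.Agent.Helper82_LQD.INT
import Pool.Agent.Helper70_LQD.SOB
import Pool.Agent.Helper38_LQD.DSU
import Pool.Agent.Helper69_LQD.DSL
import Pool.Agent.Helper76_LQD.RAL
import Pool.Agent.Helper70_LQD.FBP
import Pool.Agent.Helper70_LQD.RES
import Pool.Agent.Helper70_LQD.LCC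
import Pool.Agent.Helper20_LQD.DIA
import Pool.Agent.Helper13_LQD.OFF
import Pool.Agent.Helper38_LQD.MAS
import Pool.Agent.Helper65_LQD.STE
import Pool.Agent.Helper59_LQD.HSC
import Pool.Agent.Helper31_LQD.MEA
import Pool.Agent.Helper93_LQD.SCE
import Pool.Agent.Helper18_LQD.TEQ
import Pool.Agent.Helper22_LQD.TER
import Pool.Agent.Helper51_LQD.GAP
import Pool.Agent.Helper81_LQD.RWS
import Pool.Agent.Helper33_LQD.TOA
import Pool.Agent.Helper33_LQD.TOB
import Pool.Agent.Helper33_LQD.TOM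
import Pool.Agent.Helper88_LQD.CLQ
import Pool.Agent.Helper23_LQD.GRO
import Pool.Agent.Helper72_LQD.CLS
import Pool.Agent.Helper54_LQD.CPX
import Pool.Agent.Helper24_LQD.QDF

/-!
# Beyond the mean free path: assembly
-/

set_option autoImplicit false

open MeasureTheory ProbabilityTheory

noncomputable section

namespace Pool.Agent.LE.QD.H93

open Pool.Agent.BED Pool.Agent.LE.CL Pool.Agent.LE.IR

theorem ralT : RalStmt := QD.H76.ral IR.H54.ftb

theorem sobT : SobStmt := QD.H70.sob (QD.H46.bkt QD.H45.bes QD.H90.be2 QD.H89.tor) QD.H82.int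

theorem resT : ResStmt := QD.H70.res ralT

theorem lccT : LccStmt := QD.H70.lcc BED.H55.gc

theorem diaT : DiaStmt := QD.H20.dia ralT resT lccT

theorem offT : OffStmt := QD.H13.off ralT resT lccT

theorem masT : MasStmt := QD.H38.mas ralT resT lccT

theorem terT : TerStmt := QD.H22.ter (QD.H18.teq ralT QD.H65.ste) ralT IR.H54.ftb

theorem gapT : GapStmt := QD.H51.gap ralT QD.H38.dsu QD.H69.dsl IR.H54.ftb

theorem toaT : ToaStmt :=
  QD.H33.toa ralT sobT QD.H38.dsu (QD.H70.fbp IR.H64.nck) resT diaT QD.H31.mea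
    (QD.H93.sce ralT QD.H38.dsu QD.H69.dsl)

theorem tobT : TobStmt := QD.H33.tob ralT toaT offT terT QD.H81.rws gapT

theorem tomT : TomStmt := QD.H33.tom toaT tobT masT

theorem clqT : ClqStmt := QD.H88.clq CL.H54.clbT (CL.H76.tsa Pool.Agent.LE.H28V.krb) MN.H63.dua MN.H8.prb

theorem cpxT : CpxStmt := QD.H54.cpx tomT clqT QD.H23.gro (QD.H72.cls (QD.H59.hsc CL.H17.laq))

/-- the localization length is larger than the mean free path in the bulk -/
theorem qdfT : QdfStmt := QD.H24.qdf cpxT CL.H54.crgT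

end Pool.Agent.LE.QD.H93
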