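import Pool.Agent.LE.StmtsQE

/-!
# Squad LQD, row TOM: the torus theorem, diagonal and mass with large probability
-/

set_option autoImplicit false

open MeasureTheory ProbabilityTheory Function Filter

open scoped ENNReal BigOperators Topology NNReal ComplexOrder Matrix

noncomputable section

namespace Pool.Agent.LE.QD.H93

open Pool.Agent.Anderson hiding box mem_box card_box
open Pool.Agent.Loc Pool.Agent.Mob Pool.Agent.Helper54.Bal
  Pool.Agent.Helper96.EXP Pool.Agent.BED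
open Pool.Agent.LE.MN Pool.Agent.LE.CL Pool.Agent.LE.IR

/-! ### combinatorics -/

theorem sum_image_le' {α β : Type} [DecidableEq β] (s : Finset α) (g : α → β) (f : β → ℝ)
    (hf : ∀ b, 0 ≤ f b) : ∑ b ∈ s.image g, f b ≤ ∑ a ∈ s, f (g a) := by
  rw [← Finset.sum_fiberwise_of_maps_to (g := g) (t := s.image g)
    fun a ha => Finset.mem_image_of_mem g ha]
  refine Finset.sum_le_sum fun b hb => ?_
  obtain ⟨a, ha, rfl⟩ := Finset.mem_image.1 hb
  refine Finset.single_le_sum (f := fun a => f (g a)) (fun i _ => hf _) ?_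
  exact Finset.mem_filter.2 ⟨ha, rfl⟩

theorem card_cbt_le {d M : ℕ} [NeZero M] (a : Tor d M) (L : ℕ) : (cbt a L).card ≤ L ^ d := by
  classical
  have h1 : (cbt a L).card ≤ (Fintype.piFinset fun _ : Fin d => Finset.range L).card := by
    refine Finset.card_le_card_of_injOn (fun x i => (x i - a i).val) ?_ ?_
    · intro x hx
      rw [Finset.mem_coe, Fintype.mem_piFinset]
      intro i
      rw [Finset.mem_range]
      have h2 := (Finset.mem_filter.1 (Finset.mem_coe.1 hx)).2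
      exact h2 i
    · intro x _ y _ hxy
      funext i
      have h2 := congrFun hxy i
      have h3 : x i - a i = y i - a i := ZMod.val_injective M h2
      exact sub_left_injective h3
  refine h1.trans (le_of_eq ?_)
  rw [Fintype.card_piFinset]
  simp

/-- the union of the cubes -/
def Uc {d M : ℕ} [NeZero M] (L : ℕ) (𝒜 : Finset (Tor d M)) : Finset (Tor d M) :=
  𝒜.biUnion fun a => cbt a L

theorem eq_Uc {d M : ℕ} [NeZero M] {L : ℕ} {𝒜 C : Finset (Tor d M)}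
    (h : ∀ x ∈ C, ∃ a ∈ 𝒜, x ∈ cbt a L) (hC : C.card = 𝒜.card * L ^ d) : C = Uc L 𝒜 := by
  refine Finset.eq_of_subset_of_card_le ?_ ?_
  · intro x hx
    obtain ⟨a, ha, hxa⟩ := h x hx
    exact Finset.mem_biUnion.2 ⟨a, ha, hxa⟩
  · rw [hC]
    exact Finset.card_biUnion_le_card_mul _ _ _ fun a _ => card_cbt_le a L

/-- the sum over the unions of cubes -/
theorem sum_le_exp {X : Type} [Fintype X] [DecidableEq X] (S : Finset (Finset X))
    (hS : ∀ 𝒜 ∈ S, 𝒜.Nonempty) {Y : ℝ} (hY : (Fintype.card X : ℝ) * Real.exp (-Y) ≤ 1) :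
    ∑ 𝒜 ∈ S, 2 * Real.exp (-((𝒜.card : ℝ) * Y)) ≤
      4 * ((Fintype.card X : ℝ) * Real.exp (-Y)) := by
  obtain ⟨q, hq⟩ : ∃ q : ℝ, q = Real.exp (-Y) := ⟨_, rfl⟩
  have hq0 : 0 < q := by rw [hq]; exact Real.exp_pos _
  rw [← hq] at hY ⊢
  have h1 : ∑ 𝒜 ∈ S, 2 * Real.exp (-((𝒜.card : ℝ) * Y)) = 2 * ∑ 𝒜 ∈ S, q ^ 𝒜.card := by
    rw [Finset.mul_sum]
    refine Finset.sum_congr rfl fun 𝒜 _ => ?_
    rw [hq, ← Real.exp_nat_mul]
    congr 2
    ring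
  have h2 : ∑ 𝒜 ∈ S, q ^ 𝒜.card ≤ (1 + q) ^ Fintype.card X - 1 := by
    have h3 : ∑ 𝒜 ∈ (Finset.univ : Finset X).powerset, q ^ 𝒜.card =
        (1 + q) ^ Fintype.card X := by
      have h4 := Finset.sum_pow_mul_eq_add_pow q 1 (Finset.univ : Finset X)
      simp only [one_pow, mul_one] at h4
      rw [h4, Finset.card_univ, add_comm]
    rw [← h3, ← Finset.sum_erase_add _ _ (Finset.empty_mem_powerset (Finset.univ : Finset X))]
    simp only [Finset.card_empty, pow_zero, add_sub_cancel_right]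
    refine Finset.sum_le_sum_of_subset_of_nonneg ?_ fun i _ _ => by positivity
    intro 𝒜 h𝒜
    exact Finset.mem_erase.2 ⟨(hS 𝒜 h𝒜).ne_empty, Finset.mem_powerset.2 (Finset.subset_univ _)⟩
  have h5 : (1 + q) ^ Fintype.card X ≤ Real.exp ((Fintype.card X : ℝ) * q) := by
    rw [Real.exp_nat_mul]
    refine pow_le_pow_left₀ (by positivity) ?_ _
    have := Real.add_one_le_exp q
    linarith
  have h6 : Real.exp ((Fintype.card X : ℝ) * q) ≤ 1 + 2 * ((Fintype.card X : ℝ) * q) := by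
    obtain ⟨t, ht⟩ : ∃ t : ℝ, t = (Fintype.card X : ℝ) * q := ⟨_, rfl⟩
    rw [← ht] at hY ⊢
    have ht0 : 0 ≤ t := by rw [ht]; positivity
    have h7 := Real.abs_exp_sub_one_sub_id_le (x := t) (by rw [abs_of_nonneg ht0]; exact hY)
    have h8 := (abs_le.1 h7).2
    nlinarith
  rw [h1]
  linarith

/-! ### numbers -/

theorem small_log (n : ℕ) {η : ℝ} (hη : 0 < η) : ∃ s : ℝ, 0 < s ∧ ∀ x : ℝ, 0 < x → x ≤ s →
    x * Real.log (1 / x) ^ n ≤ η := by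
  have h1 : Tendsto (fun x : ℝ => Real.log x ^ n / (1 * x + 0)) atTop (𝓝 0) :=
    Real.tendsto_pow_log_div_mul_add_atTop 1 0 n one_ne_zero
  have h2 : ∀ᶠ x : ℝ in atTop, Real.log x ^ n / (1 * x + 0) ≤ η :=
    (h1.eventually (gt_mem_nhds hη)).mono fun x hx => hx.le
  obtain ⟨X, hX⟩ := eventually_atTop.1 h2
  refine ⟨1 / max X 1, by positivity, fun x hx hxs => ?_⟩
  have h3 : max X 1 ≤ 1 / x := by
    rw [le_div_iff₀ hx]
    rw [le_div_iff₀ (by positivity)] at hxs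
    linarith
  have h4 := hX (1 / x) ((le_max_left _ _).trans h3)
  have e : Real.log (1 / x) ^ n / (1 * (1 / x) + 0) = x * Real.log (1 / x) ^ n := by
    field_simp
    ring
  rwa [e] at h4

/-- `x ^ a ≤ ε` for small `x` -/
theorem small_rpow {a ε : ℝ} (ha : 0 < a) (hε : 0 < ε) : ∃ s : ℝ, 0 < s ∧ ∀ x : ℝ, 0 < x →
    x ≤ s → x ^ a ≤ ε := by
  refine ⟨ε ^ (1 / a), Real.rpow_pos_of_pos hε _, fun x hx hxs => ?_⟩
  calc x ^ a ≤ (ε ^ (1 / a)) ^ a := Real.rpow_le_rpow hx.le hxs ha.le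
    _ = ε := by
        rw [← Real.rpow_mul hε.le, one_div, inv_mul_cancel₀ ha.ne', Real.rpow_one]

theorem tom (toa : ToaStmt) (tob : TobStmt) (mas : MasStmt) : TomStmt := by
  intro d δ A' hd hδ hA'
  obtain ⟨ca, Ca, hca, hca4, hCa, htoa⟩ := toa d δ (A' + 6) hd hδ (by linarith)
  obtain ⟨cb, Kb, hcb, hcb4, hKb, htob⟩ := tob d δ hd hδ
  have hCa0 : 0 < Ca := by linarith
  have hKb0 : 0 < Kb := by linarith
  obtain ⟨y₀, hy₀⟩ : ∃ y : ℝ, y = 20 * (d : ℝ) + A' + 2 := ⟨_, rfl⟩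
  have hy₀0 : 0 < y₀ := by rw [hy₀]; positivity
  obtain ⟨s₁, hs₁, hsm₁⟩ := small_log 9 (show 0 < 1 / (640 * Ca ^ 4 * y₀) by positivity)
  obtain ⟨s₂, hs₂, hsm₂⟩ := small_rpow (show (0 : ℝ) < 1 / 6 by norm_num)
    (show 0 < ca / 2 by positivity)
  obtain ⟨c, hcd⟩ : ∃ c : ℝ, c = min (min (min ca cb) (min s₁ s₂)) (min (1 / 8) (ca / 2)) :=
    ⟨_, rfl⟩
  have hc : 0 < c := by rw [hcd]; positivity
  have k1 : c ≤ ca := by
    rw [hcd]; exact (min_le_left _ _).trans ((min_le_left _ _).trans (min_le_left _ _))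
  have k2 : c ≤ cb := by
    rw [hcd]; exact (min_le_left _ _).trans ((min_le_left _ _).trans (min_le_right _ _))
  have k3 : c ≤ s₁ := by
    rw [hcd]; exact (min_le_left _ _).trans ((min_le_right _ _).trans (min_le_left _ _))
  have k4 : c ≤ s₂ := by
    rw [hcd]; exact (min_le_left _ _).trans ((min_le_right _ _).trans (min_le_right _ _))
  have k5 : c ≤ 1 / 8 := by rw [hcd]; exact (min_le_right _ _).trans (min_le_left _ _)
  have k6 : c ≤ ca / 2 := by rw [hcd]; exact (min_le_right _ _).trans (min_le_right _ _)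
  refine ⟨c, Kb, hc, by linarith, hKb, ?_⟩
  intro M _ v σ E η L N n hv hσ hσc hE hη hM1 hM2 hL1 hL2 hn hN
  obtain ⟨x, hx⟩ : ∃ x : ℝ, x = |σ| := ⟨_, rfl⟩
  have hx0 : 0 < x := by rw [hx]; exact abs_pos.2 hσ
  have hx8 : x ≤ 1 / 8 := by rw [hx]; exact hσc.trans k5
  have hσ2 : σ ^ 2 = x ^ 2 := by rw [hx, sq_abs]
  obtain ⟨η₁, A, B, ζ, s, kin, hη₁, hA, hB⟩ := htoa M v σ E η hv hσ (hσc.trans k1) hE hη hM1 hM2
  rw [← hx] at hη hM1 hM2 hL2 hN kin hη₁ hA hB hσc ⊢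
  obtain ⟨ℓ, hℓ⟩ : ∃ ℓ : ℝ, ℓ = Real.log (1 / x) := ⟨_, rfl⟩
  rw [← hℓ] at hη₁ hA hB
  have hℓ1 : 1 ≤ ℓ := by
    rw [hℓ, Real.le_log_iff_exp_le (by positivity)]
    have h1 := Real.exp_one_lt_d9
    have h2 : 8 ≤ 1 / x := by
      rw [le_div_iff₀ hx0]
      linarith
    linarith
  have hℓ0 : 0 < ℓ := by linarith
  obtain ⟨hη0, hηη, hη11⟩ := kin.hη
  obtain ⟨hA0, hB0, hp0, hδ0, hs0⟩ := kin.hA
  have hη₁0 : 0 < η₁ := lt_of_lt_of_le hη0 hηη
  obtain ⟨p, hp⟩ : ∃ p : ℝ, p = x ^ (A' + 6) := ⟨_, rfl⟩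
  have hp0' : 0 < p := by rw [hp]; exact Real.rpow_pos_of_pos hx0 _
  have hv0 : (v : ℝ) = x ^ 2 := by rw [hv, hσ2]
  -- the side
  have hLx : 1 ≤ x ^ 2 * L := by rw [← hσ2]; exact hKb.trans hL1
  have hL0 : (0 : ℝ) < L := by
    by_contra hcon
    have : (L : ℝ) = 0 := le_antisymm (not_lt.1 hcon) (Nat.cast_nonneg _)
    rw [this] at hLx
    linarith
  have hLpos : 0 < L := by exact_mod_cast hL0
  have hdR : (3 : ℝ) ≤ d := by exact_mod_cast hd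
  have hLd : 1 / x ^ 6 ≤ (L : ℝ) ^ d := by
    have h1 : 1 / x ^ 2 ≤ (L : ℝ) := by
      rw [div_le_iff₀ (by positivity)]
      linarith
    have h2 : 1 ≤ (L : ℝ) := by exact_mod_cast hLpos
    calc 1 / x ^ 6 = (1 / x ^ 2) ^ 3 := by rw [div_pow, one_pow, ← pow_mul]
      _ ≤ (L : ℝ) ^ 3 := pow_le_pow_left₀ (by positivity) h1 3
      _ ≤ (L : ℝ) ^ d := pow_le_pow_right₀ h2 hd
  -- the family
  classical
  obtain ⟨S, hS⟩ : ∃ S : Finset (Finset (Tor d M)), S = Finset.univ.filter fun 𝒜 =>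
      𝒜.Nonempty ∧ 𝒜.card ≤ N ∧ (Uc L 𝒜).card = 𝒜.card * L ^ d := ⟨_, rfl⟩
  obtain ⟨𝒞, h𝒞⟩ : ∃ 𝒞 : Finset (Finset (Tor d M)), 𝒞 = S.image (Uc L) := ⟨_, rfl⟩
  obtain ⟨r, hr⟩ : ∃ r : ℝ, r = x ^ (1 / 31 : ℝ) / (4 * η) := ⟨_, rfl⟩
  have hx31 : 0 < x ^ (1 / 31 : ℝ) := Real.rpow_pos_of_pos hx0 _
  have hr0 : 0 < r := by rw [hr]; positivity
  have hmas := mas d M v E η η₁ A B p r 𝒞 hη0 hηη hA0 hB0 kin.hS kin.hB
    (by rw [hp]; exact kin.hF) hp0'.le hr0.le (by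
      intro C hC
      rw [h𝒞] at hC
      obtain ⟨𝒜, h𝒜, rfl⟩ := Finset.mem_image.1 hC
      rw [hS] at h𝒜
      obtain ⟨-, h1, -, h2⟩ := Finset.mem_filter.1 h𝒜
      rw [← Finset.card_pos, h2]
      have := Finset.card_pos.2 h1
      positivity)
  -- the exponent
  obtain ⟨Y, hY⟩ : ∃ Y : ℝ, Y = r ^ 2 * (L : ℝ) ^ d * η ^ 6 / (40 * B ^ 2 * η₁ ^ 2 * v) := ⟨_, rfl⟩
  have hv1 : (0 : ℝ) < v := by rw [hv0]; positivity
  have hx9 : x * ℓ ^ 9 ≤ 1 / (640 * Ca ^ 4 * y₀) := by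
    rw [hℓ]
    exact hsm₁ x hx0 (hσc.trans k3)
  have hYy : y₀ * ℓ ≤ Y := by
    rw [hY, le_div_iff₀ (by positivity)]
    have e1 : r ^ 2 * (L : ℝ) ^ d * η ^ 6 = x ^ (2 / 31 : ℝ) * η ^ 4 * (L : ℝ) ^ d / 16 := by
      have e2 : (x ^ (1 / 31 : ℝ)) ^ 2 = x ^ (2 / 31 : ℝ) := by
        rw [← Real.rpow_natCast, ← Real.rpow_mul hx0.le]
        norm_num
      rw [hr, div_pow, e2]
      field_simp
      ring
    have e3 : η ^ 4 = x ^ (124 / 15 : ℝ) := by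
      rw [hη, ← Real.rpow_natCast, ← Real.rpow_mul hx0.le]
      norm_num
    have h1 : x ^ (11 : ℝ) ≤ x ^ (2 / 31 : ℝ) * x ^ (124 / 15 : ℝ) := by
      rw [← Real.rpow_add hx0]
      exact Real.rpow_le_rpow_of_exponent_ge hx0 (by linarith) (by norm_num)
    have h1' : x ^ 11 ≤ x ^ (2 / 31 : ℝ) * x ^ (124 / 15 : ℝ) := by
      rw [← Real.rpow_natCast]
      exact_mod_cast h1
    rw [e1, e3]
    have h2 : x ^ 5 / 16 ≤ x ^ (2 / 31 : ℝ) * x ^ (124 / 15 : ℝ) * (L : ℝ) ^ d / 16 := by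
      have h3 : x ^ 5 ≤ x ^ (2 / 31 : ℝ) * x ^ (124 / 15 : ℝ) * (L : ℝ) ^ d := by
        calc x ^ 5 = x ^ 11 * (1 / x ^ 6) := by field_simp
          _ ≤ x ^ (2 / 31 : ℝ) * x ^ (124 / 15 : ℝ) * (L : ℝ) ^ d := by gcongr
      linarith
    refine le_trans ?_ h2
    calc y₀ * ℓ * (40 * B ^ 2 * η₁ ^ 2 * v)
        ≤ y₀ * ℓ * (40 * (Ca * ℓ) ^ 2 * (Ca * x ^ 2 * ℓ ^ 3) ^ 2 * x ^ 2) := by
          rw [hv0]
          rw [hσ2] at hη₁
          gcongr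
      _ = 40 * Ca ^ 4 * y₀ * (x * ℓ ^ 9) * x ^ 5 := by ring
      _ ≤ 40 * Ca ^ 4 * y₀ * (1 / (640 * Ca ^ 4 * y₀)) * x ^ 5 := by gcongr
      _ = x ^ 5 / 16 := by
          field_simp
          norm_num
  -- the volume
  have hvol : (Fintype.card (Tor d M) : ℝ) * Real.exp (-Y) ≤ x ^ (A' + 2) := by
    have h1 : (Fintype.card (Tor d M) : ℝ) = (M : ℝ) ^ d := by
      have : Fintype.card (Tor d M) = M ^ d := by
        unfold Tor
        rw [Fintype.card_fun, ZMod.card, Fintype.card_fin]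
      rw [this]
      push_cast
      rfl
    have h2 : (M : ℝ) ^ d ≤ x ^ (-(20 * (d : ℝ))) := by
      calc (M : ℝ) ^ d ≤ (x ^ (-20 : ℝ)) ^ d := pow_le_pow_left₀ (Nat.cast_nonneg _) hM2 d
        _ = x ^ (-(20 * (d : ℝ))) := by
            rw [← Real.rpow_natCast, ← Real.rpow_mul hx0.le]
            congr 1
            ring
    have h3 : Real.exp (-Y) ≤ x ^ y₀ := by
      have h4 : Real.log x = -ℓ := by rw [hℓ, one_div, Real.log_inv, neg_neg]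
      rw [Real.rpow_def_of_pos hx0, h4]
      refine Real.exp_le_exp.2 ?_
      have : -ℓ * y₀ = -(y₀ * ℓ) := by ring
      rw [this]
      linarith
    rw [h1]
    calc (M : ℝ) ^ d * Real.exp (-Y) ≤ x ^ (-(20 * (d : ℝ))) * x ^ y₀ := by gcongr
      _ = x ^ (A' + 2) := by
          rw [← Real.rpow_add hx0, hy₀]
          congr 1
          ring
  have hxA : x ^ (A' + 2) = x ^ A' * x ^ 2 := by
    rw [Real.rpow_add hx0]
    congr 1
    norm_num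
  have hxA6 : p ≤ x ^ A' * x ^ 2 := by
    rw [hp, ← hxA]
    exact Real.rpow_le_rpow_of_exponent_ge hx0 (by linarith) (by linarith)
  have hxA0 : 0 < x ^ A' := Real.rpow_pos_of_pos hx0 _
  have hxA1 : x ^ A' ≤ 1 := Real.rpow_le_one hx0.le (by linarith) (by linarith)
  have hx2 : x ^ 2 ≤ 1 / 64 := by
    calc x ^ 2 ≤ (1 / 8) ^ 2 := pow_le_pow_left₀ hx0.le hx8 2
      _ = 1 / 64 := by norm_num
  have hsum : ∑ C ∈ 𝒞, 2 * Real.exp (-(r ^ 2 * C.card * η ^ 6 / (40 * B ^ 2 * η₁ ^ 2 * v))) ≤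
      4 * x ^ (A' + 2) := by
    rw [h𝒞]
    refine (sum_image_le' S (Uc L) (fun C => 2 * Real.exp (-(r ^ 2 * C.card * η ^ 6 /
      (40 * B ^ 2 * η₁ ^ 2 * v)))) fun b => by positivity).trans ?_
    have h1 : ∑ 𝒜 ∈ S, 2 * Real.exp (-(r ^ 2 * ((Uc L 𝒜).card : ℝ) * η ^ 6 /
        (40 * B ^ 2 * η₁ ^ 2 * v))) = ∑ 𝒜 ∈ S, 2 * Real.exp (-((𝒜.card : ℝ) * Y)) := by
      refine Finset.sum_congr rfl fun 𝒜 h𝒜 => ?_
      rw [hS] at h𝒜
      obtain ⟨-, -, -, h2⟩ := Finset.mem_filter.1 h𝒜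
      rw [h2, hY]
      push_cast
      congr 3
      ring
    rw [h1]
    refine (sum_le_exp S (fun 𝒜 h𝒜 => ?_) (hvol.trans ?_)).trans ?_
    · rw [hS] at h𝒜
      exact (Finset.mem_filter.1 h𝒜).2.1
    · rw [hxA]
      calc x ^ A' * x ^ 2 ≤ 1 * (1 / 64) := mul_le_mul hxA1 hx2 (by positivity) (by norm_num)
        _ ≤ 1 := by norm_num
    · exact mul_le_mul_of_nonneg_left hvol (by norm_num)
  -- the inclusion
  have hpη : 2 * p / η ^ 2 ≤ x ^ (1 / 31 : ℝ) / (4 * η) := by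
    rw [div_le_div_iff₀ (by positivity) (by positivity)]
    have h1 : x ^ (3 : ℝ) ≤ η := by
      rw [hη]
      exact Real.rpow_le_rpow_of_exponent_ge hx0 (by linarith) (by norm_num)
    have h1' : x ^ 3 ≤ η := by
      rw [← Real.rpow_natCast]
      exact_mod_cast h1
    have h2 : x ^ (1 : ℝ) ≤ x ^ (1 / 31 : ℝ) :=
      Real.rpow_le_rpow_of_exponent_ge hx0 (by linarith) (by norm_num)
    rw [Real.rpow_one] at h2
    have h3 : p ≤ x ^ 7 := by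
      rw [hp, ← Real.rpow_natCast]
      exact Real.rpow_le_rpow_of_exponent_ge hx0 (by linarith) (by push_cast; linarith)
    calc 2 * p * (4 * η) = 8 * p * η := by ring
      _ ≤ 8 * x ^ 7 * η := by gcongr
      _ = (8 * x ^ 3) * (x * (x ^ 3 * η)) := by ring
      _ ≤ 1 * (x ^ (1 / 31 : ℝ) * (η * η)) := by
          refine mul_le_mul ?_ ?_ (by positivity) (by norm_num)
          · calc 8 * x ^ 3 ≤ 8 * (1 / 8) ^ 3 := by gcongr
              _ ≤ 1 := by norm_num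
          · exact mul_le_mul h2 (mul_le_mul_of_nonneg_right h1' hη0.le) (by positivity) hx31.le
      _ = x ^ (1 / 31 : ℝ) * η ^ 2 := by ring
  have hincl : {V : Tor d M → ℝ | ¬ ((∀ y : Tor d M, c ≤ (rs V ⟨E, η⟩ y y).im) ∧
        ∀ 𝒜 C' : Finset (Tor d M), 𝒜.Nonempty → 𝒜.card ≤ N → (∀ y ∈ C', ∃ a ∈ 𝒜, y ∈ cbt a L) →
          C'.card = 𝒜.card * L ^ d → mss V ⟨E, η⟩ C' ≤
            (Kb * x ^ (1 / 15 : ℝ) * (n + N * (σ ^ 2 * L) ^ d * (n : ℝ) ^ (1 - (d : ℝ) / 2)) +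
              2 * x ^ (1 / 31 : ℝ)) * C'.card / η)} ⊆
      {V | ¬ ∀ y, ‖rs V ⟨E, η⟩ y y - gb d M v ⟨E, η⟩‖ ≤ x ^ (1 / 6 : ℝ)} ∪
      {V | ¬ ∀ C ∈ 𝒞, mss V ⟨E, η⟩ C ≤
          (∫ W, mss W ⟨E, η⟩ C ∂(gau d M v)) + (r + 2 * p / η ^ 2) * C.card} := by
    intro V hV
    by_contra hcon
    rw [Set.mem_union, not_or] at hcon
    simp only [Set.mem_ofPred_eq, not_not] at hcon
    obtain ⟨hD, hC⟩ := hcon
    refine hV ⟨?_, ?_⟩
    · intro y
      have h1 := (Complex.abs_im_le_norm _).trans (hD y)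
      rw [Complex.sub_im] at h1
      have h2 := (abs_le.1 h1).1
      have h3 := hsm₂ x hx0 (hσc.trans k4)
      have h4 := kin.hg.1
      linarith
    · intro 𝒜 C' hne hcard hcov hC'
      have hU := eq_Uc hcov hC'
      have hmem : C' ∈ 𝒞 := by
        rw [h𝒞, hU]
        refine Finset.mem_image_of_mem _ ?_
        rw [hS]
        refine Finset.mem_filter.2 ⟨Finset.mem_univ _, hne, hcard, ?_⟩
        rw [← hU, hC']
      have h1 := hC C' hmem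
      have hcN : (𝒜.card : ℝ) ≤ N := by exact_mod_cast hcard
      have h2 := htob M v σ E η L n 𝒜 C' hv hσ (by rw [← hx]; exact hσc.trans k2) hE
        (by rw [← hx]; exact hη) (by rw [← hx]; exact hM1) (by rw [← hx]; exact hM2) hL1
        (by rw [← hx]; exact hL2) hn hne (hcN.trans (by rw [← hx]; exact hN)) hcov hC'
      rw [← hx] at h2
      refine h1.trans ?_
      have hσL : 0 ≤ σ ^ 2 * (L : ℝ) := by positivity
      have hn0 : (0 : ℝ) < n := by exact_mod_cast hn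
      have h3 : (r + 2 * p / η ^ 2) * (C'.card : ℝ) ≤ x ^ (1 / 31 : ℝ) * C'.card / η := by
        have h4 : r + 2 * p / η ^ 2 ≤ x ^ (1 / 31 : ℝ) / η := by
          have e : r = x ^ (1 / 31 : ℝ) / η / 4 := by rw [hr]; field_simp
          have e2 : x ^ (1 / 31 : ℝ) / (4 * η) = x ^ (1 / 31 : ℝ) / η / 4 := by field_simp
          rw [e2] at hpη
          have h5 : 0 < x ^ (1 / 31 : ℝ) / η := by positivity
          rw [e]
          linarith
        calc (r + 2 * p / η ^ 2) * (C'.card : ℝ) ≤ x ^ (1 / 31 : ℝ) / η * C'.card := by gcongr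
          _ = _ := by ring
      have h5 : (Kb * x ^ (1 / 15 : ℝ) * (n + 𝒜.card * (σ ^ 2 * L) ^ d *
          (n : ℝ) ^ (1 - (d : ℝ) / 2)) + x ^ (1 / 31 : ℝ)) * C'.card / η ≤
          (Kb * x ^ (1 / 15 : ℝ) * (n + N * (σ ^ 2 * L) ^ d *
          (n : ℝ) ^ (1 - (d : ℝ) / 2)) + x ^ (1 / 31 : ℝ)) * C'.card / η := by
        have h6 : 0 < (n : ℝ) ^ (1 - (d : ℝ) / 2) := Real.rpow_pos_of_pos hn0 _
        gcongr
      calc (∫ W, mss W ⟨E, η⟩ C' ∂(gau d M v)) + (r + 2 * p / η ^ 2) * (C'.card : ℝ)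
          ≤ (Kb * x ^ (1 / 15 : ℝ) * (n + N * (σ ^ 2 * L) ^ d *
          (n : ℝ) ^ (1 - (d : ℝ) / 2)) + x ^ (1 / 31 : ℝ)) * C'.card / η +
            x ^ (1 / 31 : ℝ) * C'.card / η := add_le_add (h2.trans h5) h3
        _ = _ := by ring
  refine (measure_mono hincl).trans ((measure_union_le _ _).trans ?_)
  have hD := kin.hD
  rw [← hp] at hD
  refine (add_le_add hD hmas).trans ?_
  have h1 : 0 ≤ ∑ C ∈ 𝒞, 2 * Real.exp (-(r ^ 2 * (C.card : ℝ) * η ^ 6 /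
      (40 * B ^ 2 * η₁ ^ 2 * v))) := Finset.sum_nonneg fun _ _ => by positivity
  rw [← ENNReal.ofReal_add hp0'.le (by linarith)]
  refine ENNReal.ofReal_le_ofReal ?_
  rw [hxA] at hsum
  have h2 : x ^ A' * x ^ 2 ≤ x ^ A' * (1 / 64) := mul_le_mul_of_nonneg_left hx2 hxA0.le
  linarith only [h2, hsum, hxA6, hxA0]

end Pool.Agent.LE.QD.H93
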